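import Pool.Agent.H30.GMC.StT

/-!
# Project GMC (MP_ea1590_ag): module RATA
-/

open AlgebraicGeometry CategoryTheory FCB MvPolynomial

namespace GMC

namespace RATA

variable {n : ℕ}

/-- a fraction in the homogeneous localisation is a unit iff its numerator is outside of
the prime -/
theorem isUnit_mk_iff (x : ProjectiveSpectrum (grd n)) (d : ℕ)
    (A B : MvPolynomial (Fin (n + 1)) ℂ) (hA : A ∈ grd n d) (hB : B ∈ grd n d)
    (hn : B ∈ x.asHomogeneousIdeal.toIdeal.primeCompl) :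
    IsUnit (HomogeneousLocalization.mk ⟨d, ⟨A, hA⟩, ⟨B, hB⟩, hn⟩ :
      HomogeneousLocalization.AtPrime (grd n) x.asHomogeneousIdeal.toIdeal) ↔
      A ∉ x.asHomogeneousIdeal.toIdeal := by
  rw [← HomogeneousLocalization.isUnit_iff_isUnit_val, HomogeneousLocalization.val_mk,
    Localization.mk_eq_mk', IsLocalization.AtPrime.isUnit_mk'_iff _ x.asHomogeneousIdeal.toIdeal]
  rfl

/-- a local homomorphism to a field kills exactly the nonunits -/
theorem map_eq_zero_iff {R K : Type} [CommRing R] [Field K] (φ : R →+* K) [IsLocalHom φ] (z : R) :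
    φ z = 0 ↔ ¬ IsUnit z := by
  constructor
  · intro h hu
    exact (hu.map φ).ne_zero h
  · intro h
    by_contra h0
    exact h (IsUnit.of_map φ z (isUnit_iff_ne_zero.2 h0))

/-- the underlying point of the projective spectrum -/
def pt (x : PS n) : ProjectiveSpectrum (grd n) := x

theorem eq_zero_iff {T : Scheme.{0}} [IsIntegral T] (h : T ⟶ PS n)
    (A B : MvPolynomial (Fin (n + 1)) ℂ) (f : T.functionField) (hf : IsRatio h A B f) :
    f = 0 ↔ A ∈ PI (h (genericPoint T)) := by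
  obtain ⟨d, hA, hB, hn, rfl⟩ := hf
  have h1 := map_eq_zero_iff (K := T.functionField) (h.stalkMap (genericPoint T)).hom
    ((Proj.stalkIso (grd n) (h (genericPoint T))).inv.hom
      (HomogeneousLocalization.mk ⟨d, ⟨A, hA⟩, ⟨B, hB⟩, hn⟩))
  have h2 := isUnit_mk_iff (pt (h (genericPoint T))) d A B hA hB hn
  have h3 : IsUnit ((Proj.stalkIso (grd n) (h (genericPoint T))).inv.hom
      (HomogeneousLocalization.mk ⟨d, ⟨A, hA⟩, ⟨B, hB⟩, hn⟩)) ↔
      IsUnit (HomogeneousLocalization.mk ⟨d, ⟨A, hA⟩, ⟨B, hB⟩, hn⟩ :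
      HomogeneousLocalization.AtPrime (grd n)
        (pt (h (genericPoint T))).asHomogeneousIdeal.toIdeal) :=
    MulEquiv.isUnit_map (Proj.stalkIso (grd n) (h (genericPoint T))).symm.commRingCatIsoToRingEquiv
  exact (h1.trans (not_congr (h3.trans h2))).trans not_not

theorem mk_sub_mk (x : ProjectiveSpectrum (grd n)) (d d' : ℕ)
    (A B A' B' : MvPolynomial (Fin (n + 1)) ℂ) (hA : A ∈ grd n d) (hB : B ∈ grd n d)
    (hA' : A' ∈ grd n d') (hB' : B' ∈ grd n d')
    (hn : B ∈ x.asHomogeneousIdeal.toIdeal.primeCompl)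
    (hn' : B' ∈ x.asHomogeneousIdeal.toIdeal.primeCompl)
    (h1 : A * B' - A' * B ∈ grd n (d + d')) (h2 : B * B' ∈ grd n (d + d'))
    (h3 : B * B' ∈ x.asHomogeneousIdeal.toIdeal.primeCompl) :
    (HomogeneousLocalization.mk ⟨d, ⟨A, hA⟩, ⟨B, hB⟩, hn⟩ :
      HomogeneousLocalization.AtPrime (grd n) x.asHomogeneousIdeal.toIdeal) -
      HomogeneousLocalization.mk ⟨d', ⟨A', hA'⟩, ⟨B', hB'⟩, hn'⟩ =
      HomogeneousLocalization.mk ⟨d + d', ⟨A * B' - A' * B, h1⟩, ⟨B * B', h2⟩, h3⟩ := by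
  apply HomogeneousLocalization.val_injective
  rw [HomogeneousLocalization.val_sub, HomogeneousLocalization.val_mk,
    HomogeneousLocalization.val_mk, HomogeneousLocalization.val_mk, Localization.mk_eq_mk',
    ← IsLocalization.mk'_sub]
  rfl

/-- pull-back of fractions to the function field -/
noncomputable def hom {T : Scheme.{0}} [IsIntegral T] (h : T ⟶ PS n) :
    HomogeneousLocalization.AtPrime (grd n)
      (pt (h (genericPoint T))).asHomogeneousIdeal.toIdeal →+* T.functionField :=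
  (h.stalkMap (genericPoint T)).hom.comp (Proj.stalkIso (grd n) (h (genericPoint T))).inv.hom

theorem ratio_sub {T : Scheme.{0}} [IsIntegral T] (h : T ⟶ PS n)
    (A B A' B' : MvPolynomial (Fin (n + 1)) ℂ) (f f' : T.functionField) (hf : IsRatio h A B f)
    (hf' : IsRatio h A' B' f') : IsRatio h (A * B' - A' * B) (B * B') (f - f') := by
  obtain ⟨d, hA, hB, hn, rfl⟩ := hf
  obtain ⟨d', hA', hB', hn', rfl⟩ := hf'
  have h1 : A * B' - A' * B ∈ grd n (d + d') := by
    refine Submodule.sub_mem _ (SetLike.mul_mem_graded hA hB') ?_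
    rw [add_comm d d']
    exact SetLike.mul_mem_graded hA' hB
  have h2 : B * B' ∈ grd n (d + d') := SetLike.mul_mem_graded hB hB'
  have h3 : B * B' ∈ (pt (h (genericPoint T))).asHomogeneousIdeal.toIdeal.primeCompl :=
    Submonoid.mul_mem _ hn hn'
  refine ⟨d + d', h1, h2, h3, ?_⟩
  have key : (HomogeneousLocalization.mk ⟨d, ⟨A, hA⟩, ⟨B, hB⟩, hn⟩ :
      HomogeneousLocalization.AtPrime (grd n)
        (pt (h (genericPoint T))).asHomogeneousIdeal.toIdeal) -
      HomogeneousLocalization.mk ⟨d', ⟨A', hA'⟩, ⟨B', hB'⟩, hn'⟩ =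
      HomogeneousLocalization.mk ⟨d + d', ⟨A * B' - A' * B, h1⟩, ⟨B * B', h2⟩, h3⟩ := mk_sub_mk (pt (h (genericPoint T))) d d' A B A' B' hA hB hA' hB' hn hn' h1 h2 h3
  exact ((hom h).map_sub _ _).symm.trans (congrArg (hom h) key)

end RATA

theorem rata_thm : S_RATA := by
  intro T _ n h
  refine ⟨?_, ?_, ?_⟩
  · intro d A B hA hB hn
    exact ⟨_, d, hA, hB, hn, rfl⟩
  · intro A B A' B' f f' hf hf'
    rw [← RATA.eq_zero_iff h _ _ _ (RATA.ratio_sub h A B A' B' f f' hf hf'), sub_eq_zero]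
  · exact RATA.eq_zero_iff h

end GMC
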