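import Pool.Agent.H30.GMC.StT

/-!
# Project GMC (MP_ea1590_ag): module XCOV
-/

open AlgebraicGeometry CategoryTheory FCB MvPolynomial

namespace GMC

namespace XCOV

theorem rho_Q (a : Pool.Agent.H22.GMC.Coord 2) : rho (Q a) = mon a := by
  unfold rho Q
  rw [aeval_X, Equiv.apply_symm_apply]

theorem sq_mem (i j : Fin 3) :
    Q (some (i, j)) * Q (some (i, j)) - Q (some (i, i)) * Q (some (j, j)) ∈ IX := by
  change rho _ = 0
  rw [map_sub, map_mul, map_mul, rho_Q, rho_Q, rho_Q]
  simp only [mon]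
  ring

theorem IX_le (h1 : S_VPT) (M : XData) (x : M.X) : IX ≤ M.P x := by
  have h2 := ((h1 M.V).1 (genericPoint M.X) x).1 (genericPoint_specializes x)
  have h3 : M.V.P (genericPoint M.X) = IX := M.gen
  rw [h3] at h2
  exact h2

end XCOV

open XCOV in
theorem xcov_thm (h1 : S_PSB) (h2 : S_VPT) : S_XCOV := by
  intro M x
  by_contra hcon
  push Not at hcon
  obtain ⟨p1, _, p3, _⟩ := h1 9
  have hpr : (M.P x).IsPrime := p1 (M.emb x)
  obtain ⟨k, hk⟩ := p3 (M.emb x)
  apply hk
  have hdiag : ∀ i : Fin 3, Q (some (i, i)) ∈ M.P x := by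
    intro i
    fin_cases i
    · exact hcon 0
    · exact hcon 1
    · exact hcon 2
  have hall : ∀ a : Pool.Agent.H22.GMC.Coord 2, Q a ∈ M.P x := by
    intro a
    rcases a with _ | ⟨i, j⟩
    · exact hcon 3
    · have h3 := IX_le h2 M x (sq_mem i j)
      have h4 : Q (some (i, j)) * Q (some (i, j)) ∈ M.P x := by
        have h5 := (M.P x).add_mem h3 ((M.P x).mul_mem_right (Q (some (j, j))) (hdiag i))
        rwa [sub_add_cancel] at h5
      exact (hpr.mem_or_mem h4).elim id id
  have h6 := hall (eI k)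
  unfold Q at h6
  rw [Equiv.symm_apply_apply] at h6
  exact h6

end GMC
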